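import Pool.Agent.H69N.KB.KAct

/-!
# Kolmogorov actions: words with coinciding or trivial letters
-/

set_option autoImplicit false
set_option linter.unusedSectionVars false

open MeasureTheory Filter Topology
open scoped ENNReal

noncomputable section

namespace Pool.Agent.H69N.KB

open Pool.Agent.W761.Box (bx bxc BM Good1 bxc_add bxc_sub bxc_mul dz orb)
open Pool.Agent.TH784.KE

variable {G : Type*} [Group G] {J : Type*} [Fintype J] {k : ℕ}
variable {X : Type*} {mA mX : MeasurableSpace X} {μ : Measure X} [IsProbabilityMeasure μ]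
variable {Φ : G →* Equiv.Perm X} {ℓ : G → ℝ}

open Classical in
/-- the limit: classes of equal letters -/
def klim (μ : Measure X) (Φ : G →* Equiv.Perm X) (w : J → G) (u : J → Fin k → G) (f : J → X → ℂ)
    (x : X) : ℂ :=
  (∏ j ∈ Finset.univ.filter (fun j => u j = 1), f j (Φ (w j) x)) *
    ∏ c ∈ (Finset.univ.image u).erase 1, ∫ y, ∏ j ∈ Finset.univ.filter (fun j => u j = c),
      f j (Φ (w j) y) ∂μ

theorem k_affine (hK : KExt μ mA ⊥ Φ ℓ) (w : J → G) (u : J → Fin k → G)
    (hu : ∀ j l, ℓ (u j l) = 0 → u j l = 1)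
    (hne : ∀ i j, (∀ l, ℓ (u i l) = ℓ (u j l)) → u i = u j)
    {f : J → X → ℂ} (hf : ∀ j, @BM X mX (f j)) :
    ∀ᵐ x ∂μ, Tendsto (fun N => bxc k N fun n => ∏ j, f j (Φ (qq w u n j) x)) atTop
      (𝓝 (klim μ Φ w u f x)) := by
  classical
  set U : Finset (Fin k → G) := insert 1 (Finset.univ.image u) with hU
  have hmem : ∀ c : {c // c ∈ U.erase 1}, ∃ j, u j = c.1 := by
    rintro ⟨c, hc⟩
    have h1 := Finset.mem_erase.1 hc
    have h2 := (Finset.mem_insert.1 h1.2).resolve_left h1.1
    obtain ⟨j, -, hj⟩ := Finset.mem_image.1 h2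
    exact ⟨j, hj⟩
  have hBM : ∀ c : {c // c ∈ U.erase 1},
      @BM X mX (fun x => ∏ j ∈ Finset.univ.filter (fun j => u j = c.1), f j (Φ (w j) x)) := by
    intro c
    choose m C b using hf
    refine ⟨Finset.measurable_fun_prod _ fun j _ => (m j).comp (hK.fl (w j)).measurable,
      ∏ j ∈ Finset.univ.filter (fun j => u j = c.1), C j, fun x => ?_⟩
    rw [norm_prod]
    exact Finset.prod_le_prod (fun _ _ => norm_nonneg _) fun j _ => b j _
  have hmain := k_action hK (J := {c // c ∈ U.erase 1}) (w := fun _ => 1) (u := fun c => c.1)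
    (fun c l => by
      obtain ⟨j, hj⟩ := hmem c
      rw [← hj]
      by_cases h : ℓ (u j l) = 0
      · exact Or.inr (hu j l h)
      · exact Or.inl h)
    (fun c => by
      obtain ⟨j, hj⟩ := hmem c
      by_contra hcon
      push Not at hcon
      refine (Finset.mem_erase.1 c.2).1 ?_
      funext l
      rw [← hj]
      exact hu j l (by rw [hj]; exact hcon l))
    (fun c c' hcc => by
      obtain ⟨j, hj⟩ := hmem c
      obtain ⟨j', hj'⟩ := hmem c'
      by_contra hcon
      push Not at hcon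
      refine hcc (Subtype.ext ?_)
      rw [← hj, ← hj']
      exact hne j j' (by rw [hj, hj']; exact hcon))
    hBM
  filter_upwards [hmain] with x hx
  have hlim : klim μ Φ w u f x = (∏ j ∈ Finset.univ.filter (fun j => u j = 1), f j (Φ (w j) x)) *
      ∏ c : {c // c ∈ U.erase 1}, ∫ y, ∏ j ∈ Finset.univ.filter (fun j => u j = c.1),
        f j (Φ (w j) y) ∂μ := by
    rw [Finset.prod_coe_sort (U.erase 1) (fun c => ∫ y, ∏ j ∈ Finset.univ.filter
      (fun j => u j = c), f j (Φ (w j) y) ∂μ), hU, Finset.erase_insert_eq_erase]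
    unfold klim
    congr 1
  rw [hlim]
  refine (hx.const_mul (∏ j ∈ Finset.univ.filter (fun j => u j = 1),
    f j (Φ (w j) x))).congr fun N => ?_
  rw [← bxc_mul]
  congr 1
  funext n
  have h1 : ∏ j, f j (Φ (qq w u n j) x) =
      ∏ c ∈ U, ∏ j ∈ Finset.univ.filter (fun j => u j = c), f j (Φ (qq w u n j) x) :=
    (Finset.prod_fiberwise_of_maps_to (fun j _ => Finset.mem_insert_of_mem
      (Finset.mem_image_of_mem u (Finset.mem_univ j))) _).symm
  rw [h1, ← Finset.mul_prod_erase U _ (Finset.mem_insert_self _ _)]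
  congr 1
  · refine Finset.prod_congr rfl fun j hj => ?_
    have h2 := (Finset.mem_filter.1 hj).2
    congr 2
    unfold qq
    rw [h2]
    simp
  · rw [← Finset.prod_coe_sort (U.erase 1) (fun c => ∏ j ∈ Finset.univ.filter (fun j => u j = c),
      f j (Φ (qq w u n j) x))]
    refine Finset.prod_congr rfl fun c _ => ?_
    refine Finset.prod_congr rfl fun j hj => ?_
    have h2 := (Finset.mem_filter.1 hj).2
    show f j (Φ (w j) (Φ (qq (fun _ => 1) (fun c => c.1) n c) x)) = _
    rw [← Equiv.Perm.mul_apply, ← map_mul]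
    congr 2
    unfold qq
    rw [h2, one_mul]

end Pool.Agent.H69N.KB
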