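import Pool.Agent.TH784.KE.One

/-!
# Kolmogorov extensions: unrestricted boxes, the base is characteristic
-/

set_option autoImplicit false
set_option linter.unusedSectionVars false

open MeasureTheory Filter Topology
open scoped ENNReal

noncomputable section

namespace Pool.Agent.H69N.KB

open Pool.Agent.W761.Box (bx bxc BM Good1 bxc_add bxc_sub bxc_mul dz orb)
open Pool.Agent.TH784.KE

variable {G : Type*} [Group G] {J : Type*}

/-- the words `w u_1^(n_1) ⋯ u_k^(n_k)` -/
def qq {k : ℕ} (w : J → G) (u : J → Fin k → G) (n : Fin k → ℕ) (j : J) : G :=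
  w j * (List.ofFn fun l => u j l ^ n l).prod

theorem ell_list {ℓ : G → ℝ} (hℓ : ∀ a b, ℓ (a * b) = ℓ a + ℓ b) :
    ∀ (k : ℕ) (g : Fin k → G), ℓ (List.ofFn g).prod = ∑ l, ℓ (g l) := by
  have h1 : ℓ 1 = 0 := by
    have := hℓ 1 1
    rw [mul_one] at this
    linarith
  intro k
  induction k with
  | zero => intro g; simp [h1]
  | succ k ih =>
    intro g
    rw [List.ofFn_succ, List.prod_cons, hℓ, ih, Fin.sum_univ_succ]

variable {X : Type*} {mA mY mX : MeasurableSpace X} {μ : Measure X} [IsProbabilityMeasure μ]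
variable {Φ : G →* Equiv.Perm X} {ℓ : G → ℝ}

theorem ell_qq (hA : Filt mX mA Φ ℓ) {k : ℕ} (w : J → G) (u : J → Fin k → G) (n : Fin k → ℕ)
    (j : J) : ℓ (qq w u n j) = pos (fun j => ℓ (w j)) (fun j l => ℓ (u j l)) n j := by
  unfold qq pos
  rw [hA.hom, ell_list hA.hom]
  congr 1
  refine Finset.sum_congr rfl fun l _ => ?_
  rw [hA.pow, nsmul_eq_mul]

theorem orb_eq : ∀ (k : ℕ) (u : Fin k → G) (n : Fin k → ℕ) (x : X),
    orb k (fun l => (Φ (u l) : X → X)) n x = Φ (List.ofFn fun l => u l ^ n l).prod x := by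
  intro k
  induction k with
  | zero =>
    intro u n x
    simp [orb]
  | succ k ih =>
    intro u n x
    rw [List.ofFn_succ, List.prod_cons, map_mul, Equiv.Perm.mul_apply, ← ih (fun l => u l.succ)
      (fun l => n l.succ) x, map_pow, Equiv.Perm.coe_pow]
    rfl

theorem good_qq (hFl : Flow μ Φ) {k : ℕ} (w : J → G) (u : J → Fin k → G) (j : J) :
    Good1 μ (fun n : Fin k → ℕ => (Φ (qq w u n j) : X → X)) := by
  intro H hH hb
  obtain ⟨C, hC⟩ := hb
  have h1 := dz k (fun l => (Φ (u j l) : X → X)) (fun l => hFl _) (fun x => H (Φ (w j) x))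
    (hH.comp (hFl _).measurable) C fun x => hC _
  filter_upwards [h1] with x hx
  obtain ⟨L, hL⟩ := hx
  refine ⟨L, hL.congr fun N => ?_⟩
  congr 1
  funext m
  rw [orb_eq]
  show H (Φ (w j) (Φ _ x)) = H (Φ (qq w u m j) x)
  unfold qq
  rw [map_mul, Equiv.Perm.mul_apply]

variable [DecidableEq J] [Fintype J] {k : ℕ}

/-- **The base is characteristic** for the unrestricted box averages along words all of whose
letters have nonzero level. -/
theorem base_char (hk : 0 < k) (hK : KExt μ mA mY Φ ℓ) (w : J → G) (u : J → Fin k → G)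
    (hu : ∀ j l, ℓ (u j l) ≠ 0) (hne : ∀ i j, i ≠ j → ∃ l, ℓ (u i l) ≠ ℓ (u j l))
    {f e : J → X → ℂ}
    (hf : ∀ j, @BM X mX (f j)) (he : ∀ j, @BM X mX (e j)) (heY : ∀ j, Measurable[mY] (e j))
    (hfe : ∀ j, ∀ B : Set X, MeasurableSet[mY] B → ∫ x in B, (f j x - e j x) ∂μ = 0) :
    ∀ᵐ x ∂μ, Tendsto (fun N => bxc k N fun n => (∏ j, f j (Φ (qq w u n j) x) -
      ∏ j, e j (Φ (qq w u n j) x))) atTop (𝓝 0) := by
  classical
  have key : ∀ t : Finset J, t ≠ ∅ → ∀ᵐ x ∂μ, Tendsto (fun N => bxc k N fun n =>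
      (∏ j ∈ t, (f j (Φ (qq w u n j) x) - e j (Φ (qq w u n j) x))) *
        ∏ j ∈ Finset.univ \ t, e j (Φ (qq w u n j) x)) atTop (𝓝 0) := by
    intro t ht
    obtain ⟨j₀, hj₀⟩ := Finset.nonempty_of_ne_empty ht
    obtain ⟨s₀, hs₀⟩ : ∃ s₀ : G, 0 < ℓ s₀ := by
      rcases lt_or_gt_of_ne (hu j₀ ⟨0, hk⟩) with h | h
      · exact ⟨(u j₀ ⟨0, hk⟩)⁻¹, by rw [hK.filt.inv]; linarith⟩
      · exact ⟨u j₀ ⟨0, hk⟩, h⟩
    have hz := zero_complex (k := k) (S := t) (q := fun n j => qq w u n j)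
      (lam := fun j => ℓ (w j)) (θ := fun j l => ℓ (u j l)) hk hK hs₀
      (fun n v => ell_qq hK.filt w u n v)
      (fun v _ l h => absurd h (hu v l)) (fun l => ⟨j₀, hj₀, hu j₀ l⟩)
      (fun v _ w' _ hvw => hne v w' hvw) (fun v => good_qq hK.fl w u v)
      (F := fun j => if j ∈ t then (fun x => f j x - e j x) else e j) (fun v => by
        by_cases hv : v ∈ t
        · simp only [hv, if_true]
          obtain ⟨m₁, C₁, b₁⟩ := hf v
          obtain ⟨m₂, C₂, b₂⟩ := he v
          exact ⟨⟨m₁.sub m₂, C₁ + C₂, fun x => (norm_sub_le _ _).trans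
            (add_le_add (b₁ x) (b₂ x))⟩, fun _ => hfe v, fun h => absurd hv h⟩
        · simp only [hv, if_false]
          exact ⟨he v, fun h => absurd h hv, fun _ => heY v⟩)
    filter_upwards [hz] with x hx
    refine hx.congr fun N => ?_
    congr 1
    funext n
    rw [← Finset.prod_mul_prod_compl t, ← Finset.compl_eq_univ_sdiff]
    congr 1
    · refine Finset.prod_congr rfl fun j hj => ?_
      rw [if_pos hj]
    · refine Finset.prod_congr rfl fun j hj => ?_
      rw [if_neg (Finset.mem_compl.1 hj)]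
  have hall : ∀ᵐ x ∂μ, ∀ t : Finset J, t ≠ ∅ → Tendsto (fun N => bxc k N fun n =>
      (∏ j ∈ t, (f j (Φ (qq w u n j) x) - e j (Φ (qq w u n j) x))) *
        ∏ j ∈ Finset.univ \ t, e j (Φ (qq w u n j) x)) atTop (𝓝 0) := by
    rw [ae_all_iff]
    intro t
    by_cases ht : t = ∅
    · exact Eventually.of_forall fun x h => absurd ht h
    · filter_upwards [key t ht] with x hx _
      exact hx
  filter_upwards [hall] with x hx
  have hsum := tendsto_finsetSum ((Finset.univ : Finset J).powerset.erase ∅) fun t ht =>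
    hx t (Finset.ne_of_mem_erase ht)
  rw [Finset.sum_const_zero] at hsum
  refine hsum.congr fun N => ?_
  rw [← bxc_sum]
  congr 1
  funext n
  have h1 := Finset.prod_add (fun j => f j (Φ (qq w u n j) x) - e j (Φ (qq w u n j) x))
    (fun j => e j (Φ (qq w u n j) x)) (Finset.univ : Finset J)
  have h2 : ∏ j, (f j (Φ (qq w u n j) x) - e j (Φ (qq w u n j) x) + e j (Φ (qq w u n j) x)) =
      ∏ j, f j (Φ (qq w u n j) x) := Finset.prod_congr rfl fun j _ => by ring
  rw [h2, ← Finset.add_sum_erase _ _ (Finset.empty_mem_powerset _)] at h1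
  rw [h1, Finset.prod_empty, one_mul, Finset.sdiff_empty]
  ring

end Pool.Agent.H69N.KB
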