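import Pool.Agent.H69N.KB.Affine
import Pool.Agent.W761.Box.Main

/-!
# Kolmogorov extensions, unrestricted boxes: essentially bounded functions, commuting maps
-/

set_option autoImplicit false
set_option linter.unusedSectionVars false

open MeasureTheory Filter Topology
open scoped ENNReal

noncomputable section

namespace Pool.Agent.H69N.KB

open Pool.Agent.W761.Box (bx bxc BM Good1 bxc_add bxc_sub bxc_mul dz orb eval_affine prod_zpow_add)
open Pool.Agent.TH784.KE

universe v w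

theorem bm_of_memLp {Y : Type w} [MeasurableSpace Y] {ν : Measure Y} {f : Y → ℂ}
    (hf : MemLp f ∞ ν) : ∃ g : Y → ℂ, BM g ∧ f =ᵐ[ν] g := by
  obtain ⟨g, hgm, hfg⟩ := hf.1
  have hg : MemLp g ∞ ν := (memLp_congr_ae hfg).mp hf
  obtain ⟨C, hC⟩ : ∃ C : ℝ, ∀ᵐ x ∂ν, ‖g x‖ ≤ C := by
    have h1 : eLpNormEssSup g ν < ∞ := by
      have := hg.2
      rwa [eLpNorm_exponent_top] at this
    refine ⟨(eLpNormEssSup g ν).toReal, ?_⟩
    filter_upwards [ae_le_eLpNormEssSup (f := g) (μ := ν)] with x hx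
    rw [← toReal_enorm]
    exact ENNReal.toReal_mono h1.ne hx
  refine ⟨fun x => if ‖g x‖ ≤ C then g x else 0, ⟨?_, |C|, fun x => ?_⟩, ?_⟩
  · exact Measurable.ite (measurableSet_le hgm.measurable.norm measurable_const) hgm.measurable
      measurable_const
  · show ‖if ‖g x‖ ≤ C then g x else 0‖ ≤ |C|
    split_ifs with h
    · exact h.trans (le_abs_self _)
    · simp
  · filter_upwards [hfg, hC] with x hx hx'
    rw [hx, if_pos hx']

section

variable {G : Type v} [Group G] {J : Type*} [Fintype J] {k : ℕ}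
variable {X : Type w} {mA mY mX : MeasurableSpace X} {μ : Measure X} [IsProbabilityMeasure μ]
variable {Φ : G →* Equiv.Perm X} {ℓ : G → ℝ}

theorem kext_of_trivial (hΦ : ∀ g, MeasurePreserving (Φ g) μ μ)
    (hℓ : ∀ g h, ℓ (g * h) = ℓ g + ℓ h) (h𝒜 : mA ≤ mX)
    (hmono : ∀ g, ℓ g ≤ 0 → mA.comap (Φ g : X → X) ≤ mA)
    (hgen : ∀ B, MeasurableSet[mX] B →
      ∃ B', MeasurableSet[⨆ g, mA.comap (Φ g : X → X)] B' ∧ B =ᵐ[μ] B')
    (htail : ∀ B, (∀ g, MeasurableSet[mA.comap (Φ g : X → X)] B) → μ B = 0 ∨ μ B = 1) :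
    KExt μ mA ⊥ Φ ℓ := by
  refine ⟨hΦ, ⟨hℓ, h𝒜, hmono⟩, ⟨bot_le, fun g => ?_⟩, hgen, ?_⟩
  · intro B hB
    rcases MeasurableSpace.measurableSet_bot_iff.1 hB with h | h
    · rw [h, Set.preimage_empty]
      exact MeasurableSpace.measurableSet_empty _
    · rw [h, Set.preimage_univ]
      exact @MeasurableSet.univ X ⊥
  · intro B hB
    have h1 : ℓ 1 = 0 := by
      have := hℓ 1 1
      rw [mul_one] at this
      linarith
    rcases htail B hB with h | h
    · exact ⟨∅, MeasurableSpace.measurableSet_empty _, ae_eq_empty.2 h⟩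
    · have hBm : MeasurableSet[mX] B := ((hmono 1 h1.le).trans h𝒜) _ (hB 1)
      exact ⟨Set.univ, @MeasurableSet.univ X ⊥, ae_eq_univ.2 ((prob_compl_eq_zero_iff hBm).2 h)⟩

theorem char_memLp (hk : 0 < k) (hK : KExt μ mA mY Φ ℓ) (w : J → G) (u : J → Fin k → G)
    (hu : ∀ j l, ℓ (u j l) ≠ 0) (hne : ∀ i j, i ≠ j → ∃ l, ℓ (u i l) ≠ ℓ (u j l))
    {f : J → X → ℂ} (hf : ∀ j, MemLp (f j) ∞ μ) :
    ∀ᵐ x ∂μ, Tendsto (fun N => bxc k N fun n => (∏ j, f j (Φ (qq w u n j) x) -
      ∏ j, (μ[f j | mY]) (Φ (qq w u n j) x))) atTop (𝓝 0) := by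
  classical
  choose g hg hfg using fun j => bm_of_memLp (hf j)
  choose e he heY hee hfe using fun j =>
    exists_cond (μ := μ) (hK.base.le.trans hK.filt.le) (hg j)
  have hmain := base_char hk hK w u hu hne hg he heY hfe
  have h1 : ∀ᵐ x ∂μ, ∀ (n : Fin k → ℕ) (j : J), f j (Φ (qq w u n j) x) = g j (Φ (qq w u n j) x) := by
    rw [ae_all_iff]
    intro n
    rw [ae_all_iff]
    intro j
    exact (hK.fl _).quasiMeasurePreserving.ae (hfg j)
  have h2 : ∀ᵐ x ∂μ, ∀ (n : Fin k → ℕ) (j : J),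
      (μ[f j | mY]) (Φ (qq w u n j) x) = e j (Φ (qq w u n j) x) := by
    rw [ae_all_iff]
    intro n
    rw [ae_all_iff]
    intro j
    have h3 : μ[f j | mY] =ᵐ[μ] e j := (condExp_congr_ae (hfg j)).trans (hee j).symm
    exact (hK.fl _).quasiMeasurePreserving.ae h3
  filter_upwards [hmain, h1, h2] with x hx hx1 hx2
  refine hx.congr fun N => ?_
  congr 1
  funext n
  simp only [hx1, hx2]

theorem k_memLp (hK : KExt μ mA ⊥ Φ ℓ) (w : J → G) (u : J → Fin k → G)
    (hu : ∀ j l, ℓ (u j l) = 0 → u j l = 1)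
    (hne : ∀ i j, (∀ l, ℓ (u i l) = ℓ (u j l)) → u i = u j)
    {f : J → X → ℂ} (hf : ∀ j, MemLp (f j) ∞ μ) :
    ∀ᵐ x ∂μ, Tendsto (fun N => bxc k N fun n => ∏ j, f j (Φ (qq w u n j) x)) atTop
      (𝓝 (klim μ Φ w u f x)) := by
  classical
  choose g hg hfg using fun j => bm_of_memLp (hf j)
  have hmain := k_affine hK w u hu hne hg
  have h1 : ∀ᵐ x ∂μ, ∀ (n : Fin k → ℕ) (j : J), f j (Φ (qq w u n j) x) = g j (Φ (qq w u n j) x) := by
    rw [ae_all_iff]
    intro n
    rw [ae_all_iff]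
    intro j
    exact (hK.fl _).quasiMeasurePreserving.ae (hfg j)
  have h2 : ∀ᵐ x ∂μ, ∀ j : J, f j (Φ (w j) x) = g j (Φ (w j) x) := by
    rw [ae_all_iff]
    intro j
    exact (hK.fl _).quasiMeasurePreserving.ae (hfg j)
  filter_upwards [hmain, h1, h2] with x hx hx1 hx2
  have h3 : klim μ Φ w u f x = klim μ Φ w u g x := by
    unfold klim
    congr 1
    · exact Finset.prod_congr rfl fun j _ => hx2 j
    · refine Finset.prod_congr rfl fun c _ => ?_
      refine integral_congr_ae ?_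
      filter_upwards [h2] with y hy
      exact Finset.prod_congr rfl fun j _ => hy j
  rw [h3]
  simp only [hx1]
  exact hx

end

section

variable {k d n : ℕ} {X : Type w} {mA mX : MeasurableSpace X} {μ : Measure X}
  [IsProbabilityMeasure μ]

/-- `T^z = T_1^(z_1) ⋯ T_d^(z_d)`. -/
def pw {d : ℕ} {X : Type w} (T : Fin d → Equiv.Perm X) (z : Fin d → ℤ) : Equiv.Perm X :=
  (List.ofFn fun i => T i ^ z i).prod

/-- the action of `ℤ^d` -/
def act (T : Fin d → Equiv.Perm X) (hc : ∀ i j, Commute (T i) (T j)) :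
    Multiplicative (Fin d → ℤ) →* Equiv.Perm X where
  toFun z := pw T z.toAdd
  map_one' := by
    show (List.ofFn fun i => T i ^ ((0 : Fin d → ℤ) i)).prod = 1
    simp
  map_mul' z z' := prod_zpow_add T hc z.toAdd z'.toAdd

theorem mp_zpow {T : Equiv.Perm X} (h1 : Measurable T.symm) (h2 : MeasurePreserving T μ μ) :
    ∀ z : ℤ, MeasurePreserving (T ^ z : Equiv.Perm X) μ μ := by
  let e : X ≃ᵐ X := ⟨T, h2.measurable, h1⟩
  have h3 : MeasurePreserving (T⁻¹ : Equiv.Perm X) μ μ := h2.symm e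
  have h4 : ∀ (S : Equiv.Perm X), MeasurePreserving S μ μ → ∀ m : ℕ,
      MeasurePreserving (S ^ m : Equiv.Perm X) μ μ := by
    intro S hS m
    rw [Equiv.Perm.coe_pow]
    exact hS.iterate m
  intro z
  cases z with
  | ofNat m => simpa using h4 T h2 m
  | negSucc m =>
    rw [zpow_negSucc, ← inv_pow]
    exact h4 _ h3 _

theorem mp_pw {d : ℕ} {T : Fin d → Equiv.Perm X} (h1 : ∀ i, Measurable (T i).symm)
    (h2 : ∀ i, MeasurePreserving (T i) μ μ) (z : Fin d → ℤ) : MeasurePreserving (pw T z) μ μ := by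
  unfold pw
  induction d with
  | zero =>
    simp only [List.ofFn_zero, List.prod_nil]
    exact MeasurePreserving.id μ
  | succ d ih =>
    rw [List.ofFn_succ, List.prod_cons]
    exact (mp_zpow (h1 0) (h2 0) (z 0)).comp
      (ih (fun i => h1 i.succ) (fun i => h2 i.succ) fun i => z i.succ)

/-- **Kolmogorov actions of `ℤ^d`, exponents of degree at most one, unrestricted boxes.** -/
theorem comm_affine {T : Fin d → Equiv.Perm X} (hTm : ∀ i, Measurable (T i).symm)
    (hT : ∀ i, MeasurePreserving (T i) μ μ) (hc : ∀ i j, Commute (T i) (T j)) (a : Fin d → ℝ)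
    (hle : mA ≤ mX)
    (hmono : ∀ z : Fin d → ℤ, ∑ i, a i * z i ≤ 0 → mA.comap (pw T z) ≤ mA)
    (hgen : ∀ B, MeasurableSet[mX] B →
      ∃ B', MeasurableSet[⨆ z, mA.comap (pw T z)] B' ∧ B =ᵐ[μ] B')
    (htail : ∀ B, (∀ z, MeasurableSet[mA.comap (pw T z)] B) → μ B = 0 ∨ μ B = 1)
    (P : Fin d → Fin n → MvPolynomial (Fin k) ℤ) (hP : ∀ i j, (P i j).totalDegree ≤ 1)
    (h0 : ∀ j l, ∑ i, a i * (P i j).coeff (Finsupp.single l 1) = 0 →
      ∀ i, (P i j).coeff (Finsupp.single l 1) = 0)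
    (h1 : ∀ j j', (∀ l, ∑ i, a i * (P i j).coeff (Finsupp.single l 1) =
        ∑ i, a i * (P i j').coeff (Finsupp.single l 1)) →
      ∀ i l, (P i j).coeff (Finsupp.single l 1) = (P i j').coeff (Finsupp.single l 1))
    {f : Fin n → X → ℂ} (hf : ∀ j, MemLp (f j) ∞ μ) :
    ∀ᵐ x ∂μ, ∃ L : ℂ, Tendsto (fun N => bxc k N fun m => ∏ j, f j
      (pw T (fun i => MvPolynomial.eval (fun l => ((m l : ℕ) : ℤ)) (P i j)) x)) atTop (𝓝 L) := by
  classical
  choose g hg hfg using fun j => bm_of_memLp (hf j)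
  set ℓ : Multiplicative (Fin d → ℤ) → ℝ := fun z => ∑ i, a i * z.toAdd i with hℓ
  have hK : KExt μ mA ⊥ (act T hc) ℓ := by
    refine ⟨fun z => mp_pw hTm hT z.toAdd, ⟨?_, hle, fun z hz => hmono z.toAdd hz⟩,
      ⟨bot_le, fun z => ?_⟩, ?_, ?_⟩
    · intro z z'
      show ∑ i, a i * ((z.toAdd i + z'.toAdd i : ℤ) : ℝ) = _
      rw [hℓ, ← Finset.sum_add_distrib]
      refine Finset.sum_congr rfl fun i _ => ?_
      push_cast
      ring
    · intro B hB
      rcases MeasurableSpace.measurableSet_bot_iff.1 hB with h | h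
      · rw [h, Set.preimage_empty]
        exact MeasurableSpace.measurableSet_empty _
      · rw [h, Set.preimage_univ]
        exact @MeasurableSet.univ X ⊥
    · exact hgen
    · intro B hB
      rcases htail B hB with h | h
      · exact ⟨∅, MeasurableSpace.measurableSet_empty _, ae_eq_empty.2 h⟩
      · have hBm : MeasurableSet[mX] B := by
          have h2 := hB (Multiplicative.ofAdd 0)
          have h3 : mA.comap (pw T 0) ≤ mX :=
            (hmono 0 (by simp)).trans hle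
          exact h3 _ h2
        refine ⟨Set.univ, @MeasurableSet.univ X ⊥, ?_⟩
        exact ae_eq_univ.2 ((prob_compl_eq_zero_iff hBm).2 h)
  have hmain := k_affine hK (w := fun j => Multiplicative.ofAdd fun i => (P i j).coeff 0)
    (u := fun j l => Multiplicative.ofAdd fun i => (P i j).coeff (Finsupp.single l 1))
    (fun j l h => by
      have h2 := h0 j l h
      show Multiplicative.ofAdd (fun i => (P i j).coeff (Finsupp.single l 1)) = _
      rw [show (fun i => (P i j).coeff (Finsupp.single l 1)) = (0 : Fin d → ℤ) from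
        funext h2]
      rfl)
    (fun i j h => by
      have h2 := h1 i j h
      funext l
      show Multiplicative.ofAdd (fun i' => (P i' i).coeff (Finsupp.single l 1)) =
        Multiplicative.ofAdd (fun i' => (P i' j).coeff (Finsupp.single l 1))
      rw [show (fun i' => (P i' i).coeff (Finsupp.single l 1)) =
        (fun i' => (P i' j).coeff (Finsupp.single l 1)) from funext fun i' => h2 i' l]) hg
  have h3 : ∀ᵐ x ∂μ, ∀ (m : Fin k → ℕ) (j : Fin n),
      f j (pw T (fun i => MvPolynomial.eval (fun l => ((m l : ℕ) : ℤ)) (P i j)) x) =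
      g j (pw T (fun i => MvPolynomial.eval (fun l => ((m l : ℕ) : ℤ)) (P i j)) x) := by
    rw [ae_all_iff]
    intro m
    rw [ae_all_iff]
    intro j
    exact (mp_pw hTm hT _).quasiMeasurePreserving.ae (hfg j)
  filter_upwards [hmain, h3] with x hL hx3
  refine ⟨_, hL.congr fun N => ?_⟩
  congr 1
  funext m
  refine Finset.prod_congr rfl fun j _ => ?_
  rw [hx3]
  congr 2
  show pw T (Multiplicative.toAdd (qq _ _ m j)) = _
  congr 1
  unfold qq
  rw [toAdd_mul, List.prod_ofFn, toAdd_prod]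
  funext i
  rw [eval_affine _ (hP i j), Pi.add_apply, Finset.sum_apply]
  congr 1

end

end Pool.Agent.H69N.KB
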