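import Pool.Agent.H69N.KB.Char

/-!
# Kolmogorov actions: unrestricted boxes, all linear forms
-/

set_option autoImplicit false
set_option linter.unusedSectionVars false

open MeasureTheory Filter Topology
open scoped ENNReal

noncomputable section

namespace Pool.Agent.H69N.KB

open Pool.Agent.W761.Box (bx bxc BM Good1 bxc_add bxc_sub bxc_mul dz orb)
open Pool.Agent.TH784.KE

section reduce

variable {k k' : ℕ}

/-- extension by zero along an embedding -/
def ext (e : Fin k' ↪ Fin k) (n : Fin k' → ℕ) : Fin k → ℕ := Function.extend e n 0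

theorem ext_apply (e : Fin k' ↪ Fin k) (n : Fin k' → ℕ) (i : Fin k') : ext e n (e i) = n i :=
  e.injective.extend_apply _ _ _

theorem ext_zero (e : Fin k' ↪ Fin k) (n : Fin k' → ℕ) {l : Fin k} (h : ∀ i, e i ≠ l) :
    ext e n l = 0 := by
  unfold ext
  rw [Function.extend_apply' _ _ _ (by rintro ⟨i, hi⟩; exact h i hi)]
  rfl

theorem card_fiber (e : Fin k' ↪ Fin k) (N : Fin k → ℕ) (n' : Fin k' → ℕ)
    (hn' : ∀ i, n' i < N (e i)) :
    ((Fintype.piFinset fun j => Finset.range (N j)).filter fun n => n ∘ e = n').card =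
      ∏ j ∈ Finset.univ.filter (fun j => ∀ i, e i ≠ j), N j := by
  classical
  have h : ((Fintype.piFinset fun j => Finset.range (N j)).filter fun n => n ∘ e = n') =
      Fintype.piFinset fun j => if ∀ i, e i ≠ j then Finset.range (N j) else {ext e n' j} := by
    ext n
    simp only [Finset.mem_filter, Fintype.mem_piFinset, Finset.mem_range]
    constructor
    · rintro ⟨h1, h2⟩ j
      split_ifs with hj
      · exact Finset.mem_range.2 (h1 j)
      · push Not at hj
        obtain ⟨i, rfl⟩ := hj
        rw [Finset.mem_singleton, ext_apply, ← h2, Function.comp_apply]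
    · intro h1
      constructor
      · intro j
        have h2 := h1 j
        split_ifs at h2 with hj
        · exact Finset.mem_range.1 h2
        · push Not at hj
          obtain ⟨i, rfl⟩ := hj
          rw [Finset.mem_singleton, ext_apply] at h2
          rw [h2]
          exact hn' i
      · funext i
        have h2 := h1 (e i)
        rw [if_neg (by push Not; exact ⟨i, rfl⟩), Finset.mem_singleton, ext_apply] at h2
        exact h2
  rw [h, Fintype.card_piFinset, ← Finset.prod_filter_mul_prod_filter_not Finset.univ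
    (fun j => ∀ i, e i ≠ j)]
  have h1 : ∏ j ∈ Finset.univ.filter (fun j => ¬ ∀ i, e i ≠ j),
      (if ∀ i, e i ≠ j then Finset.range (N j) else {ext e n' j}).card = 1 := by
    refine Finset.prod_eq_one fun j hj => ?_
    rw [if_neg (Finset.mem_filter.1 hj).2, Finset.card_singleton]
  rw [h1, mul_one]
  refine Finset.prod_congr rfl fun j hj => ?_
  rw [if_pos (Finset.mem_filter.1 hj).2, Finset.card_range]

theorem prod_split (e : Fin k' ↪ Fin k) (N : Fin k → ℂ) :
    ∏ j, N j = (∏ i, N (e i)) * ∏ j ∈ Finset.univ.filter (fun j => ∀ i, e i ≠ j), N j := by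
  classical
  rw [← Finset.prod_filter_mul_prod_filter_not Finset.univ (fun j => ∀ i, e i ≠ j), mul_comm]
  congr 1
  have h : Finset.univ.filter (fun j => ¬ ∀ i, e i ≠ j) = Finset.univ.map e := by
    ext j
    simp
  rw [h, Finset.prod_map]

/-- box averages of arrays which do not depend on some of the variables -/
theorem bxc_reduce (e : Fin k' ↪ Fin k) (φ : (Fin k → ℕ) → ℂ)
    (hφ : ∀ n n' : Fin k → ℕ, n ∘ e = n' ∘ e → φ n = φ n') (N : Fin k → ℕ)
    (hN : ∀ j, 1 ≤ N j) :
    bxc k N φ = bxc k' (N ∘ e) fun n => φ (ext e n) := by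
  classical
  have hP : (∏ j ∈ Finset.univ.filter (fun j => ∀ i, e i ≠ j), (N j : ℂ)) ≠ 0 := by
    refine Finset.prod_ne_zero_iff.2 fun j _ => ?_
    have := hN j
    exact_mod_cast (by omega : N j ≠ 0)
  have hsum : ∑ n ∈ Fintype.piFinset (fun j => Finset.range (N j)), φ n =
      (∏ j ∈ Finset.univ.filter (fun j => ∀ i, e i ≠ j), (N j : ℂ)) *
        ∑ n' ∈ Fintype.piFinset (fun i => Finset.range ((N ∘ e) i)), φ (ext e n') := by
    rw [← Finset.sum_fiberwise_of_maps_to (s := Fintype.piFinset fun j => Finset.range (N j))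
      (t := Fintype.piFinset fun i => Finset.range ((N ∘ e) i)) (g := fun n => n ∘ e)
      (fun n hn => by
        rw [Fintype.mem_piFinset] at hn ⊢
        exact fun i => hn (e i)), Finset.mul_sum]
    refine Finset.sum_congr rfl fun n' hn' => ?_
    rw [Finset.sum_congr rfl fun n hn => hφ n (ext e n') (by
      rw [(Finset.mem_filter.1 hn).2]
      funext i
      rw [Function.comp_apply, ext_apply]), Finset.sum_const, nsmul_eq_mul, card_fiber]
    · push_cast
      rfl
    · intro i
      exact Finset.mem_range.1 ((Fintype.mem_piFinset.1 hn') i)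
  unfold Pool.Agent.W761.Box.bxc
  rw [hsum, prod_split e fun j => (N j : ℂ), mul_inv]
  simp only [Function.comp_apply]
  field_simp

theorem bx_reduce (e : Fin k' ↪ Fin k) (φ : (Fin k → ℕ) → ℝ)
    (hφ : ∀ n n' : Fin k → ℕ, n ∘ e = n' ∘ e → φ n = φ n') (N : Fin k → ℕ)
    (hN : ∀ j, 1 ≤ N j) :
    bx k N φ = bx k' (N ∘ e) fun n => φ (ext e n) := by
  have h := bxc_reduce e (fun n => (φ n : ℂ)) (fun n n' h => by rw [hφ n n' h]) N hN
  rw [bxc_cast, bxc_cast] at h
  exact_mod_cast h

end reduce

variable {G : Type*} [Group G] {J : Type*}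
variable {X : Type*} {mA mX : MeasurableSpace X} {μ : Measure X} [IsProbabilityMeasure μ]
variable {Φ : G →* Equiv.Perm X} {ℓ : G → ℝ} {k : ℕ}

theorem good_ext (hFl : Flow μ Φ) {k' : ℕ} (hk' : 0 < k') (e : Fin k' ↪ Fin k)
    (w : J → G) (u : J → Fin k → G) (j : J) :
    Good1 μ (fun n : Fin k' → ℕ => (Φ (qq w u (ext e n) j) : X → X)) := by
  classical
  set u' : J → Fin k → G := fun j l => if ∃ i, e i = l then u j l else 1 with hu'
  have hq : ∀ n : Fin k' → ℕ, qq w u' (ext e n) j = qq w u (ext e n) j := by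
    intro n
    unfold qq
    congr 2
    congr 1
    funext l
    simp only [hu']
    split_ifs with h
    · rfl
    · rw [ext_zero e n (by push Not at h; exact h), pow_zero, pow_zero]
  have hdep : ∀ n n' : Fin k → ℕ, n ∘ e = n' ∘ e → qq w u' n j = qq w u' n' j := by
    intro n n' h
    unfold qq
    congr 2
    congr 1
    funext l
    simp only [hu']
    split_ifs with h1
    · obtain ⟨i, rfl⟩ := h1
      have := congrFun h i
      simp only [Function.comp_apply] at this
      rw [this]
    · rw [one_pow, one_pow]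
  intro H hH hb
  have h1 := good_qq hFl w u' j H hH hb
  filter_upwards [h1] with x hx
  obtain ⟨L, hL⟩ := hx
  refine ⟨L, ?_⟩
  set NN : (Fin k' → ℕ) → Fin k → ℕ := fun N' j => if ∃ i, e i = j then ext e N' j else
    N' ⟨0, hk'⟩ with hNN
  have hNe : ∀ N', NN N' ∘ e = N' := by
    intro N'
    funext i
    simp only [hNN, Function.comp_apply]
    rw [if_pos ⟨i, rfl⟩, ext_apply]
  have hlim : Tendsto NN atTop atTop := by
    refine tendsto_atTop_atTop.2 fun b => ⟨fun _ => ∑ j, b j, fun N' hN' j => ?_⟩
    have hbj : b j ≤ ∑ j, b j := Finset.single_le_sum (f := b) (fun _ _ => Nat.zero_le _)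
      (Finset.mem_univ j)
    simp only [hNN]
    split_ifs with h
    · obtain ⟨i, rfl⟩ := h
      rw [ext_apply]
      exact hbj.trans (hN' i)
    · exact hbj.trans (hN' _)
  have h2 := hL.comp hlim
  refine (tendsto_congr' ?_).1 h2
  filter_upwards [eventually_ge_atTop (fun _ : Fin k' => 1)] with N' hN'
  rw [Function.comp_apply, bx_reduce e _ (fun n n' h => by rw [hdep n n' h]) (NN N') ?_, hNe]
  · congr 1
    funext n
    rw [hq]
  · intro j
    simp only [hNN]
    split_ifs with h
    · obtain ⟨i, rfl⟩ := h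
      rw [ext_apply]
      exact hN' i
    · exact hN' _

variable [DecidableEq J] [Fintype J]

/-- **Kolmogorov actions, unrestricted boxes, all linear forms.** -/
theorem k_action (hK : KExt μ mA ⊥ Φ ℓ) (w : J → G) (u : J → Fin k → G)
    (hu : ∀ j l, ℓ (u j l) ≠ 0 ∨ u j l = 1) (hu0 : ∀ j, ∃ l, ℓ (u j l) ≠ 0)
    (hne : ∀ i j, i ≠ j → ∃ l, ℓ (u i l) ≠ ℓ (u j l))
    {f : J → X → ℂ} (hf : ∀ j, @BM X mX (f j)) :
    ∀ᵐ x ∂μ, Tendsto (fun N => bxc k N fun n => ∏ j, f j (Φ (qq w u n j) x)) atTop
      (𝓝 (∏ j, ∫ x, f j x ∂μ)) := by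
  classical
  set c : J → ℂ := fun j => ∫ x, f j x ∂μ with hc
  have h1ell : ℓ 1 = 0 := hK.filt.one
  have key : ∀ t : Finset J, t ≠ ∅ → ∀ᵐ x ∂μ, Tendsto (fun N => bxc k N fun n =>
      (∏ j ∈ t, (f j (Φ (qq w u n j) x) - c j)) * ∏ j ∈ Finset.univ \ t, c j) atTop (𝓝 0) := by
    intro t ht
    obtain ⟨j₀, hj₀⟩ := Finset.nonempty_of_ne_empty ht
    obtain ⟨l₀, hl₀⟩ := hu0 j₀
    obtain ⟨s₀, hs₀⟩ : ∃ s₀ : G, 0 < ℓ s₀ := by
      rcases lt_or_gt_of_ne hl₀ with h | h
      · exact ⟨(u j₀ l₀)⁻¹, by rw [hK.filt.inv]; linarith⟩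
      · exact ⟨u j₀ l₀, h⟩
    set Lt : Finset (Fin k) := Finset.univ.filter fun l => ∃ v ∈ t, ℓ (u v l) ≠ 0 with hLt
    have hLt0 : l₀ ∈ Lt := Finset.mem_filter.2 ⟨Finset.mem_univ _, j₀, hj₀, hl₀⟩
    have hk' : 0 < Lt.card := Finset.card_pos.2 ⟨l₀, hLt0⟩
    set e : Fin Lt.card ↪ Fin k := (Lt.orderEmbOfFin rfl).toEmbedding with he
    have herange : ∀ l, l ∈ Lt ↔ ∃ i, e i = l := by
      intro l
      have h := Lt.range_orderEmbOfFin rfl
      constructor
      · intro hl
        have h2 : l ∈ Set.range (Lt.orderEmbOfFin rfl) := by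
          rw [h]
          exact hl
        obtain ⟨i, hi⟩ := h2
        exact ⟨i, hi⟩
      · rintro ⟨i, rfl⟩
        exact Lt.orderEmbOfFin_mem rfl i
    have hone : ∀ v ∈ t, ∀ l, (∀ i, e i ≠ l) → u v l = 1 := by
      intro v hv l hl
      rcases hu v l with h | h
      · exfalso
        have : l ∈ Lt := Finset.mem_filter.2 ⟨Finset.mem_univ _, v, hv, h⟩
        obtain ⟨i, hi⟩ := (herange l).1 this
        exact hl i hi
      · exact h
    have hdep : ∀ v ∈ t, ∀ n n' : Fin k → ℕ, n ∘ e = n' ∘ e → qq w u n v = qq w u n' v := by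
      intro v hv n n' h
      unfold qq
      congr 2
      congr 1
      funext l
      by_cases hl : ∃ i, e i = l
      · obtain ⟨i, rfl⟩ := hl
        have := congrFun h i
        simp only [Function.comp_apply] at this
        rw [this]
      · push Not at hl
        rw [hone v hv l hl, one_pow, one_pow]
    -- positions
    have hpos : ∀ (n : Fin Lt.card → ℕ) (v : J), ℓ (qq w u (ext e n) v) =
        pos (fun j => ℓ (w j)) (fun j i => ℓ (u j (e i))) n v := by
      intro n v
      rw [ell_qq hK.filt]
      unfold pos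
      congr 1
      rw [← Finset.sum_filter_add_sum_filter_not Finset.univ (fun l => ∃ i, e i = l)]
      have h2 : ∑ l ∈ Finset.univ.filter (fun l => ¬ ∃ i, e i = l), ext e n l • ℓ (u v l) = 0 := by
        refine Finset.sum_eq_zero fun l hl => ?_
        have h3 := (Finset.mem_filter.1 hl).2
        push Not at h3
        rw [ext_zero e n h3, zero_smul]
      have h3 : Finset.univ.filter (fun l => ∃ i, e i = l) = Finset.univ.map e := by
        ext l
        simp
      rw [h2, add_zero, h3, Finset.sum_map]
      refine Finset.sum_congr rfl fun i _ => ?_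
      rw [ext_apply]
    have hz := zero_complex (k := Lt.card) (S := t) (q := fun n j => qq w u (ext e n) j)
      (lam := fun j => ℓ (w j)) (θ := fun j i => ℓ (u j (e i))) hk' hK hs₀
      (fun n v => hpos n v)
      (fun v hv i h n s => by
        have hui : u v (e i) = 1 := (hu v (e i)).resolve_left (not_not.2 h)
        show qq w u (ext e (Function.update n i s)) v = qq w u (ext e n) v
        unfold qq
        congr 2
        congr 1
        funext l
        by_cases hl : ∃ i', e i' = l
        · obtain ⟨i', rfl⟩ := hl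
          rw [ext_apply, ext_apply]
          by_cases hii : i' = i
          · subst hii
            rw [hui, one_pow, one_pow]
          · rw [Function.update_of_ne hii]
        · push Not at hl
          rw [ext_zero e _ hl, ext_zero e _ hl])
      (fun i => by
        have h := (herange (e i)).2 ⟨i, rfl⟩
        exact (Finset.mem_filter.1 h).2)
      (fun v hv v' hv' hvw => by
        obtain ⟨l, hl⟩ := hne v v' hvw
        have hmem : l ∈ Lt := by
          refine Finset.mem_filter.2 ⟨Finset.mem_univ _, ?_⟩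
          by_cases h0 : ℓ (u v l) = 0
          · exact ⟨v', hv', fun h => hl (h0.trans h.symm)⟩
          · exact ⟨v, hv, h0⟩
        obtain ⟨i, rfl⟩ := (herange l).1 hmem
        exact ⟨i, hl⟩)
      (fun v => good_ext hK.fl hk' e w u v)
      (F := fun j => if j ∈ t then (fun x => f j x - c j) else fun _ => 1) (fun v => by
        by_cases hv : v ∈ t
        · simp only [hv, if_true]
          obtain ⟨m₁, C₁, b₁⟩ := hf v
          have hfi : Integrable (f v) μ := Integrable.of_bound m₁.aestronglyMeasurable C₁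
            (Eventually.of_forall b₁)
          refine ⟨⟨m₁.sub_const _, C₁ + ‖c v‖, fun x => (norm_sub_le _ _).trans
            (add_le_add (b₁ x) le_rfl)⟩, fun _ B hB => ?_, fun h => absurd hv h⟩
          rcases MeasurableSpace.measurableSet_bot_iff.1 hB with h | h
          · rw [h]
            simp
          · rw [h, setIntegral_univ, integral_sub hfi (integrable_const _), integral_const]
            simp [hc]
        · simp only [hv, if_false]
          exact ⟨⟨measurable_const, 1, fun x => by simp⟩, fun h => absurd h hv,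
            fun _ => measurable_const⟩)
    filter_upwards [hz] with x hx
    have hlim : Tendsto (fun N : Fin k → ℕ => N ∘ e) atTop atTop := by
      refine tendsto_atTop_atTop.2 fun b => ⟨fun _ => ∑ i, b i, fun N hN i => ?_⟩
      exact (Finset.single_le_sum (f := b) (fun _ _ => Nat.zero_le _)
        (Finset.mem_univ i)).trans (hN (e i))
    have h3 := (hx.comp hlim).mul_const (∏ j ∈ Finset.univ \ t, c j)
    rw [zero_mul] at h3
    refine (tendsto_congr' ?_).1 h3
    filter_upwards [eventually_ge_atTop (fun _ : Fin k => 1)] with N hN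
    have h4 : ∀ n : Fin k → ℕ, (∏ j ∈ t, (f j (Φ (qq w u n j) x) - c j)) *
        ∏ j ∈ Finset.univ \ t, c j = (∏ j ∈ Finset.univ \ t, c j) *
        ∏ j, (if j ∈ t then (fun x => f j x - c j) else fun _ => 1) (Φ (qq w u n j) x) := by
      intro n
      rw [mul_comm]
      congr 1
      rw [← Finset.prod_mul_prod_compl t]
      rw [Finset.prod_eq_one (s := tᶜ) (fun j hj => by
        rw [if_neg (Finset.mem_compl.1 hj)]), mul_one]
      refine Finset.prod_congr rfl fun j hj => ?_
      rw [if_pos hj]
    simp only [h4]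
    rw [Function.comp_apply, bxc_mul, mul_comm]
    congr 1
    symm
    refine bxc_reduce e _ (fun n n' h => ?_) N hN
    refine Finset.prod_congr rfl fun j _ => ?_
    by_cases hj : j ∈ t
    · rw [hdep j hj n n' h]
    · simp only [hj, if_false]
  have hall : ∀ᵐ x ∂μ, ∀ t : Finset J, t ≠ ∅ → Tendsto (fun N => bxc k N fun n =>
      (∏ j ∈ t, (f j (Φ (qq w u n j) x) - c j)) * ∏ j ∈ Finset.univ \ t, c j) atTop (𝓝 0) := by
    rw [ae_all_iff]
    intro t
    by_cases ht : t = ∅
    · exact Eventually.of_forall fun x h => absurd ht h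
    · filter_upwards [key t ht] with x hx _
      exact hx
  filter_upwards [hall] with x hx
  have hsum := tendsto_finsetSum ((Finset.univ : Finset J).powerset.erase ∅) fun t ht =>
    hx t (Finset.ne_of_mem_erase ht)
  rw [Finset.sum_const_zero] at hsum
  have hfin := hsum.const_add (∏ j, c j)
  rw [add_zero] at hfin
  refine (tendsto_congr' ?_).1 hfin
  filter_upwards [eventually_ge_atTop (fun _ : Fin k => 1)] with N hN
  have hconst : bxc k N (fun _ => ∏ j, c j) = ∏ j, c j := by
    unfold Pool.Agent.W761.Box.bxc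
    rw [Finset.sum_const, Fintype.card_piFinset, nsmul_eq_mul]
    simp only [Finset.card_range]
    push_cast
    rw [← mul_assoc, inv_mul_cancel₀, one_mul]
    refine Finset.prod_ne_zero_iff.2 fun j _ => ?_
    have hNj : 1 ≤ N j := hN j
    exact_mod_cast (by omega : N j ≠ 0)
  rw [← hconst, ← bxc_sum]
  rw [← bxc_add]
  congr 1
  funext n
  have h1 := Finset.prod_add (fun j => f j (Φ (qq w u n j) x) - c j) c (Finset.univ : Finset J)
  have h2 : ∏ j, (f j (Φ (qq w u n j) x) - c j + c j) =
      ∏ j, f j (Φ (qq w u n j) x) := Finset.prod_congr rfl fun j _ => by ring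
  rw [h2, ← Finset.add_sum_erase _ _ (Finset.empty_mem_powerset _)] at h1
  rw [h1, Finset.prod_empty, one_mul, Finset.sdiff_empty]

end Pool.Agent.H69N.KB
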